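import Mathlib

set_option autoImplicit false

namespace Pool.Agent.Results.MP_407208_co.SideInnerSwap

open Finset

/-- The cells of the `n × n` grid. -/
abbrev Cell (n : ℕ) := Fin n × Fin n

/-- Two cells are adjacent if they are distinct and touch horizontally, vertically or diagonally. -/
def Adj {n : ℕ} (c d : Cell n) : Prop :=
  c ≠ d ∧ (c.1.val ≤ d.1.val + 1 ∧ d.1.val ≤ c.1.val + 1) ∧
    (c.2.val ≤ d.2.val + 1 ∧ d.2.val ≤ c.2.val + 1)

instance {n : ℕ} (c d : Cell n) : Decidable (Adj c d) := by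
  unfold Adj; infer_instance

/-- An `n × n` board: a bijection from the cells to `n * n` labels. -/
abbrev Board (n : ℕ) := Cell n ≃ Fin (n * n)

/-- The `k`-letter words of the board `B`. -/
def words {n : ℕ} (k : ℕ) (B : Board n) : Set (List (Fin (n * n))) :=
  {a | a.length = k ∧ a.Nodup ∧ a.IsChain fun x y => Adj (B.symm x) (B.symm y)}

/-- Two boards are equivalent if they have the same words of every length `≥ 2`. -/
def Equivalent {n : ℕ} (B B' : Board n) : Prop := ∀ k, 2 ≤ k → words k B = words k B'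

/-- The number of `k`-letter words in common. -/
noncomputable def common {n : ℕ} (k : ℕ) (B B' : Board n) : ℕ := (words k B ∩ words k B').ncard

/-- a corner cell -/
def IsCorner {n : ℕ} (c : Cell n) : Prop :=
  (c.1.val = 0 ∨ c.1.val + 1 = n) ∧ (c.2.val = 0 ∨ c.2.val + 1 = n)

/-- a boundary cell -/
def IsBoundary {n : ℕ} (c : Cell n) : Prop :=
  c.1.val = 0 ∨ c.1.val + 1 = n ∨ c.2.val = 0 ∨ c.2.val + 1 = n

/-- the two cells share an edge -/
def ShareEdge {n : ℕ} (c d : Cell n) : Prop :=
  (c.1 = d.1 ∧ (c.2.val + 1 = d.2.val ∨ d.2.val + 1 = c.2.val)) ∨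
    (c.2 = d.2 ∧ (c.1.val + 1 = d.1.val ∨ d.1.val + 1 = c.1.val))

/-- `B'` is a corner-side swap of `B`: the labels in a corner cell and in a non-corner boundary cell
sharing an edge with it are exchanged. -/
def IsCornerSideSwap {n : ℕ} (B B' : Board n) : Prop :=
  ∃ c s : Cell n, IsCorner c ∧ IsBoundary s ∧ ¬ IsCorner s ∧ ShareEdge c s ∧
    B' = (Equiv.swap c s).trans B

/-! ### sums of powers of two -/

theorem pow_two_sum (n : ℕ) : ∀ c : ℕ → ℕ, ∑ v ∈ range n, c v * 2 ^ v + 1 = 2 ^ n →
    n ≤ ∑ v ∈ range n, c v ∧ (∑ v ∈ range n, c v = n → ∀ v, v < n → c v = 1) := by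
  induction n with
  | zero => intro c _; simp
  | succ n ih =>
    intro c hc
    rw [Finset.sum_range_succ'] at hc
    simp only [pow_zero, mul_one, pow_succ] at hc
    have h1 : ∑ k ∈ range n, c (k + 1) * (2 ^ k * 2) = 2 * ∑ k ∈ range n, c (k + 1) * 2 ^ k := by
      rw [Finset.mul_sum]; exact Finset.sum_congr rfl fun k _ => by ring
    rw [h1] at hc
    obtain ⟨k, hk⟩ : ∃ k, c 0 = 2 * k + 1 := by
      have : c 0 % 2 = 1 := by omega
      exact ⟨c 0 / 2, by omega⟩
    rcases n with _ | n
    · simp at hc ⊢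
      omega
    · set c' : ℕ → ℕ := fun v => c (v + 1) + (if v = 0 then k else 0) with hc'
      have hs1 : ∑ v ∈ range (n + 1), c' v = ∑ v ∈ range (n + 1), c (v + 1) + k := by
        simp only [hc', Finset.sum_add_distrib]
        simp
      have hs2 : ∑ v ∈ range (n + 1), c' v * 2 ^ v = ∑ v ∈ range (n + 1), c (v + 1) * 2 ^ v + k := by
        simp only [hc', add_mul, Finset.sum_add_distrib, ite_mul, zero_mul]
        simp
      have hpow : 2 ^ (n + 1) = 2 ^ n * 2 := pow_succ 2 n
      obtain ⟨i1, i2⟩ := ih c' (by rw [hs2]; omega)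
      rw [hs1] at i1 i2
      rw [Finset.sum_range_succ']
      refine ⟨by omega, ?_⟩
      intro heq v hv
      have hk0 : k = 0 := by omega
      have h3 := i2 (by omega)
      rcases v with _ | v
      · omega
      · have := h3 v (by omega)
        simp only [hc', hk0, ite_self, add_zero] at this
        exact this

/-- the weight of a list -/
def wt (l : List (Fin 16)) : ℕ := (l.map fun v => 2 ^ v.val).sum

theorem wt_eq (l : List (Fin 16)) : wt l = ∑ v : Fin 16, l.count v * 2 ^ v.val := by
  induction l with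
  | nil => simp [wt]
  | cons a l ih =>
    have h1 : wt (a :: l) = 2 ^ a.val + wt l := by simp [wt]
    rw [h1, ih]
    simp only [List.count_cons, add_mul, Finset.sum_add_distrib, ite_mul, one_mul, zero_mul]
    have h2 : (∑ v : Fin 16, if (a == v) = true then 2 ^ v.val else 0) = 2 ^ a.val := by simp
    rw [h2, add_comm]

theorem length_eq (l : List (Fin 16)) : l.length = ∑ v : Fin 16, l.count v := by
  induction l with
  | nil => simp
  | cons a l ih =>
    simp only [List.length_cons, ih, List.count_cons, Finset.sum_add_distrib]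
    have h2 : (∑ v : Fin 16, if (a == v) = true then 1 else 0) = 1 := by simp
    rw [h2]

theorem nodup_iff (l : List (Fin 16)) (hl : l.length = 16) : l.Nodup ↔ wt l = 65535 := by
  constructor
  · intro h
    have hc : ∀ v, l.count v = 1 := by
      have hle : ∀ v, l.count v ≤ 1 := List.nodup_iff_count_le_one.mp h
      intro v
      by_contra hv
      have h0 : l.count v = 0 := by have := hle v; omega
      have h1 : l.length < 16 := by
        rw [length_eq]
        calc ∑ v : Fin 16, l.count v < ∑ _v : Fin 16, 1 :=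
              Finset.sum_lt_sum (fun u _ => hle u) ⟨v, Finset.mem_univ _, by omega⟩
          _ = 16 := by simp
      omega
    rw [wt_eq]
    simp only [hc, one_mul]
    decide
  · intro h
    set c : ℕ → ℕ := fun v => if hv : v < 16 then l.count ⟨v, hv⟩ else 0 with hc
    have h1 : ∑ v ∈ range 16, c v * 2 ^ v = wt l := by
      rw [wt_eq, Finset.sum_range]
      refine Finset.sum_congr rfl fun v _ => ?_
      simp [hc]
    have h2 : ∑ v ∈ range 16, c v = 16 := by
      refine Eq.trans ?_ hl
      rw [length_eq, Finset.sum_range]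
      refine Finset.sum_congr rfl fun v _ => ?_
      simp [hc]
    have h0 : ∑ v ∈ range 16, c v * 2 ^ v + 1 = 2 ^ 16 := by
      rw [h1, h]; norm_num
    have h3 : ∀ v, v < 16 → c v = 1 := (pow_two_sum 16 c h0).2 h2
    rw [List.nodup_iff_count_le_one]
    intro v
    have := h3 v.val v.isLt
    simp only [hc, v.isLt, dif_pos] at this
    exact this.le

/-! ### walks and their generating function -/

section walks

variable (R : Fin 16 → Fin 16 → Prop) [DecidableRel R]

/-- the walks with `t + 1` vertices whose first vertex is `v` -/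
def T : ℕ → Fin 16 → Finset (List (Fin 16))
  | 0, v => {[v]}
  | t + 1, v => (univ.filter (R v)).biUnion fun u => (T t u).image (v :: ·)

theorem mem_T (t : ℕ) (v : Fin 16) (l : List (Fin 16)) :
    l ∈ T R t v ↔ l.length = t + 1 ∧ l.head? = some v ∧ l.IsChain R := by
  induction t generalizing v l with
  | zero =>
    simp only [T, Finset.mem_singleton]
    constructor
    · rintro rfl; simp
    · rintro ⟨h1, h2, -⟩
      rcases l with _ | ⟨a, l⟩
      · simp at h1
      · simp at h1 h2
        rw [h1, h2]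
  | succ t ih =>
    simp only [T, Finset.mem_biUnion, Finset.mem_filter, Finset.mem_univ, true_and,
      Finset.mem_image]
    constructor
    · rintro ⟨u, hu, l', hl', rfl⟩
      rw [ih] at hl'
      obtain ⟨h1, h2, h3⟩ := hl'
      rcases l' with _ | ⟨a, l'⟩
      · simp at h1
      · simp only [List.head?_cons, Option.some.injEq] at h2
        subst h2
        refine ⟨by simp at h1 ⊢; omega, by simp, ?_⟩
        rw [List.isChain_cons_cons]
        exact ⟨hu, h3⟩
    · rintro ⟨h1, h2, h3⟩
      rcases l with _ | ⟨a, _ | ⟨b, l⟩⟩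
      · simp at h1
      · simp at h1
      · simp only [List.head?_cons, Option.some.injEq] at h2
        subst h2
        rw [List.isChain_cons_cons] at h3
        refine ⟨b, h3.1, b :: l, ?_, rfl⟩
        rw [ih]
        exact ⟨by simp at h1 ⊢; omega, by simp, h3.2⟩

theorem T_disj (t : ℕ) {u v : Fin 16} (huv : u ≠ v) : Disjoint (T R t u) (T R t v) := by
  rw [Finset.disjoint_left]
  intro l h1 h2
  rw [mem_T] at h1 h2
  have := h1.2.1.symm.trans h2.2.1
  exact huv (Option.some.inj this)

theorem T_image_disj (t : ℕ) (w : Fin 16) {u v : Fin 16} (huv : u ≠ v) :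
    Disjoint ((T R t u).image (w :: ·)) ((T R t v).image (w :: ·)) := by
  rw [Finset.disjoint_left]
  intro l h1 h2
  rw [Finset.mem_image] at h1 h2
  obtain ⟨l1, h1, rfl⟩ := h1
  obtain ⟨l2, h2, h3⟩ := h2
  simp only [List.cons.injEq, true_and] at h3
  subst h3
  exact Finset.disjoint_left.mp (T_disj R t huv) h1 h2

/-- the generating function -/
def S (X : ℕ) (t : ℕ) (v : Fin 16) : ℕ := ∑ l ∈ T R t v, X ^ wt l

theorem S_zero (X : ℕ) (v : Fin 16) : S R X 0 v = X ^ 2 ^ v.val := by simp [S, T, wt]

theorem S_succ (X t : ℕ) (v : Fin 16) :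
    S R X (t + 1) v = (∑ u ∈ univ.filter (R v), S R X t u) * X ^ 2 ^ v.val := by
  unfold S
  rw [T, Finset.sum_biUnion (fun u _ w _ h => T_image_disj R t v h), Finset.sum_mul]
  refine Finset.sum_congr rfl fun u _ => ?_
  rw [Finset.sum_image (fun a _ b _ h => by simpa using h), Finset.sum_mul]
  refine Finset.sum_congr rfl fun l _ => ?_
  have : wt (v :: l) = 2 ^ v.val + wt l := by simp [wt]
  rw [this, pow_add, mul_comm]

theorem T_card (hdeg : ∀ v, (univ.filter (R v)).card ≤ 8) (t : ℕ) (v : Fin 16) :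
    (T R t v).card ≤ 8 ^ t := by
  induction t generalizing v with
  | zero => simp [T]
  | succ t ih =>
    rw [T]
    refine Finset.card_biUnion_le.trans ?_
    calc ∑ u ∈ univ.filter (R v), ((T R t u).image (v :: ·)).card
        ≤ ∑ _u ∈ univ.filter (R v), 8 ^ t :=
          Finset.sum_le_sum fun u _ => Finset.card_image_le.trans (ih u)
      _ = (univ.filter (R v)).card * 8 ^ t := by rw [Finset.sum_const, smul_eq_mul]
      _ ≤ 8 * 8 ^ t := Nat.mul_le_mul_right _ (hdeg v)
      _ = 8 ^ (t + 1) := by ring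

/-- all walks with 16 vertices -/
def A : Finset (List (Fin 16)) := univ.biUnion fun v => T R 15 v

theorem mem_A (l : List (Fin 16)) : l ∈ A R ↔ l.length = 16 ∧ l.IsChain R := by
  simp only [A, Finset.mem_biUnion, Finset.mem_univ, true_and, mem_T]
  constructor
  · rintro ⟨v, h1, -, h3⟩; exact ⟨h1, h3⟩
  · rintro ⟨h1, h3⟩
    rcases l with _ | ⟨a, l⟩
    · simp at h1
    · exact ⟨a, h1, by simp, h3⟩

theorem sum_A (X : ℕ) : ∑ l ∈ A R, X ^ wt l = ∑ v, S R X 15 v := by
  unfold A S
  rw [Finset.sum_biUnion (fun u _ w _ h => T_disj R 15 h)]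

theorem A_card (hdeg : ∀ v, (univ.filter (R v)).card ≤ 8) : (A R).card < 2 ^ 50 := by
  have h1 : (A R).card ≤ ∑ v : Fin 16, 8 ^ 15 :=
    Finset.card_biUnion_le.trans (Finset.sum_le_sum fun v _ => T_card R hdeg 15 v)
  rw [Finset.sum_const, smul_eq_mul, Finset.card_univ, Fintype.card_fin] at h1
  omega

end walks

/-- reading off a coefficient -/
theorem extract {α : Type} (A : Finset α) (w : α → ℕ) (X M : ℕ) (hX : A.card < X) :
    (∑ a ∈ A, X ^ w a) % X ^ (M + 1) / X ^ M = (A.filter fun a => w a = M).card := by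
  classical
  have hX0 : 0 < X := by omega
  rcases M with _ | M
  · -- degenerate case
    have h1 : ∑ a ∈ A, X ^ w a = (A.filter fun a => w a = 0).card +
        ∑ a ∈ A.filter (fun a => ¬ w a = 0), X ^ w a := by
      rw [← Finset.sum_filter_add_sum_filter_not A (fun a => w a = 0)]
      congr 1
      rw [Finset.card_eq_sum_ones]
      refine Finset.sum_congr rfl fun a ha => ?_
      rw [(Finset.mem_filter.mp ha).2, pow_zero]
    have h2 : X ∣ ∑ a ∈ A.filter (fun a => ¬ w a = 0), X ^ w a := by
      refine Finset.dvd_sum fun a ha => ?_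
      exact dvd_pow_self X (Finset.mem_filter.mp ha).2
    obtain ⟨q, hq⟩ := h2
    have h3 : (A.filter fun a => w a = 0).card ≤ A.card := Finset.card_filter_le _ _
    rw [h1, hq, zero_add, pow_one, pow_zero, Nat.div_one, Nat.add_mul_mod_self_left]
    exact Nat.mod_eq_of_lt (lt_of_le_of_lt h3 hX)
  · set M' := M + 1 with hM'
    have h1 : ∑ a ∈ A, X ^ w a = (∑ a ∈ A.filter (fun a => w a < M'), X ^ w a) +
        ((A.filter fun a => w a = M').card * X ^ M' +
          ∑ a ∈ A.filter (fun a => M' < w a), X ^ w a) := by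
      rw [← Finset.sum_filter_add_sum_filter_not A (fun a => w a < M')]
      congr 1
      rw [← Finset.sum_filter_add_sum_filter_not (A.filter fun a => ¬ w a < M') (fun a => w a = M')]
      congr 1
      · have : (A.filter fun a => ¬ w a < M').filter (fun a => w a = M') = A.filter fun a => w a = M' := by
          ext a; simp only [Finset.mem_filter]
          constructor
          · rintro ⟨⟨h, -⟩, h'⟩; exact ⟨h, h'⟩
          · rintro ⟨h, h'⟩; exact ⟨⟨h, by omega⟩, h'⟩
        rw [this, Finset.sum_congr rfl (g := fun _ => X ^ M'), Finset.sum_const, smul_eq_mul]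
        intro a ha
        rw [(Finset.mem_filter.mp ha).2]
      · refine Finset.sum_congr ?_ fun _ _ => rfl
        ext a; simp only [Finset.mem_filter]
        constructor
        · rintro ⟨⟨h, h'⟩, h''⟩; exact ⟨h, by omega⟩
        · rintro ⟨h, h'⟩; exact ⟨⟨h, by omega⟩, by omega⟩
    have h2 : X ^ (M' + 1) ∣ ∑ a ∈ A.filter (fun a => M' < w a), X ^ w a := by
      refine Finset.dvd_sum fun a ha => ?_
      exact pow_dvd_pow X (Finset.mem_filter.mp ha).2
    obtain ⟨q, hq⟩ := h2
    have h3 : (A.filter fun a => w a = M').card ≤ A.card := Finset.card_filter_le _ _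
    have h4 : ∑ a ∈ A.filter (fun a => w a < M'), X ^ w a < X ^ M' := by
      calc ∑ a ∈ A.filter (fun a => w a < M'), X ^ w a
          ≤ ∑ _a ∈ A.filter (fun a => w a < M'), X ^ M := by
            refine Finset.sum_le_sum fun a ha => ?_
            have := (Finset.mem_filter.mp ha).2
            exact Nat.pow_le_pow_right hX0 (by omega)
        _ = (A.filter fun a => w a < M').card * X ^ M := by rw [Finset.sum_const, smul_eq_mul]
        _ ≤ A.card * X ^ M := Nat.mul_le_mul_right _ (Finset.card_filter_le _ _)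
        _ < X * X ^ M := Nat.mul_lt_mul_of_pos_right hX (Nat.pow_pos hX0)
        _ = X ^ M' := by rw [hM', pow_succ]; ring
    set a := ∑ a ∈ A.filter (fun a => w a < M'), X ^ w a
    set c := (A.filter fun a => w a = M').card
    have h5 : a + c * X ^ M' < X ^ (M' + 1) := by
      have h6 : c + 1 ≤ X := by omega
      calc a + c * X ^ M' < X ^ M' + c * X ^ M' := by omega
        _ = (c + 1) * X ^ M' := by ring
        _ ≤ X * X ^ M' := Nat.mul_le_mul_right _ h6
        _ = X ^ (M' + 1) := by rw [pow_succ]; ring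
    rw [h1, hq, ← add_assoc, Nat.add_mul_mod_self_left, Nat.mod_eq_of_lt h5,
      Nat.add_mul_div_right _ _ (Nat.pow_pos hX0), Nat.div_eq_of_lt h4, zero_add]

theorem extract' {α : Type} (A : Finset α) (w : α → ℕ) (X M K : ℕ) (hK : M + 1 = K)
    (hX : A.card < X) :
    (∑ a ∈ A, X ^ w a) % X ^ K / X ^ M = (A.filter fun a => w a = M).card := by
  subst hK; exact extract A w X M hX

/-! ### the computation -/

/-- one step of the computation, `N` is the list of adjacency lists -/
def step (N : List (List ℕ)) (s : List ℕ) : List ℕ :=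
  (List.range 16).map fun v =>
    (((N.getD v []).map fun u => s.getD u 0).sum * (2 ^ 50) ^ 2 ^ v) % (2 ^ 50) ^ 65536

def iter (N : List (List ℕ)) : ℕ → List ℕ
  | 0 => (List.range 16).map fun v => (2 ^ 50) ^ 2 ^ v
  | t + 1 => step N (iter N t)

def answer (N : List (List ℕ)) : ℕ := (iter N 15).sum % (2 ^ 50) ^ 65536 / (2 ^ 50) ^ 65535

theorem getD_map_range (f : ℕ → ℕ) (v : ℕ) (hv : v < 16) :
    ((List.range 16).map f).getD v 0 = f v := by
  rw [List.getD_eq_getElem?_getD, List.getElem?_map, List.getElem?_range hv]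
  rfl

theorem iter_eq (R : Fin 16 → Fin 16 → Prop) [DecidableRel R] (N : List (List ℕ))
    (hN : ∀ v : Fin 16, (univ.filter (R v)).val.map Fin.val = ((N.getD v.val [] : List ℕ) : Multiset ℕ))
    (t : ℕ) (v : Fin 16) : (iter N t).getD v.val 0 ≡ S R (2 ^ 50) t v [MOD (2 ^ 50) ^ 65536] := by
  induction t generalizing v with
  | zero =>
    rw [iter, getD_map_range _ _ v.isLt, S_zero]
  | succ t ih =>
    rw [iter, step, getD_map_range _ _ v.isLt, S_succ]
    refine (Nat.mod_modEq _ _).trans (Nat.ModEq.mul_right _ ?_)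
    have h1 : ((N.getD v.val []).map fun u => (iter N t).getD u 0).sum =
        ∑ u ∈ univ.filter (R v), (iter N t).getD u.val 0 := by
      have h2 : ((N.getD v.val []).map fun u => (iter N t).getD u 0).sum =
          (((N.getD v.val [] : List ℕ) : Multiset ℕ).map fun u => (iter N t).getD u 0).sum := by
        rw [Multiset.map_coe, Multiset.sum_coe]
      rw [h2, ← hN, Multiset.map_map]
      rfl
    rw [h1]
    exact Nat.ModEq.sum fun u _ => ih u

theorem answer_eq (R : Fin 16 → Fin 16 → Prop) [DecidableRel R] (N : List (List ℕ))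
    (hN : ∀ v : Fin 16, (univ.filter (R v)).val.map Fin.val = ((N.getD v.val [] : List ℕ) : Multiset ℕ))
    (hdeg : ∀ v, (univ.filter (R v)).card ≤ 8) :
    answer N = ((A R).filter fun l => wt l = 65535).card := by
  have h1 := extract' (A R) wt (2 ^ 50) 65535 65536 (by norm_num) (A_card R hdeg)
  have h2 : (iter N 15).sum = ∑ v : Fin 16, (iter N 15).getD v.val 0 := by
    have h3 : iter N 15 = (List.range 16).map fun v => (iter N 15).getD v 0 := by
      have h4 : (iter N 15).length = 16 := by
        rw [show (15 : ℕ) = 14 + 1 from rfl, iter, step, List.length_map, List.length_range]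
      apply List.ext_getElem
      · rw [h4, List.length_map, List.length_range]
      · intro i h5 h6
        rw [List.getElem_map, List.getElem_range, List.getD_eq_getElem _ _ h5]
    conv_lhs => rw [h3]
    rw [← Finset.sum_range fun v => (iter N 15).getD v 0]
    rw [Finset.sum_eq_multiset_sum, Finset.range_val, ← Multiset.coe_range, Multiset.map_coe,
      Multiset.sum_coe]
  have h3 : (∑ v : Fin 16, (iter N 15).getD v.val 0) ≡ ∑ v, S R (2 ^ 50) 15 v
      [MOD (2 ^ 50) ^ 65536] := Nat.ModEq.sum fun v _ => iter_eq R N hN 15 v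
  rw [← h1, answer, sum_A, h2]
  unfold Nat.ModEq at h3
  rw [h3]

/-! ### the boards -/

/-- the standard labelling of the `4 × 4` board -/
def B₀ : Board 4 := finProdFinEquiv

/-- the corner-side swap -/
def B₁ : Board 4 := (Equiv.swap (0, 0) (0, 1)).trans B₀

/-- exchange of the labels in a side cell and in the inner cell next to it -/
def B₂ : Board 4 := (Equiv.swap (0, 1) (1, 1)).trans B₀

def R (B : Board 4) (x y : Fin 16) : Prop :=
  Adj (B₀.symm x) (B₀.symm y) ∧ Adj (B.symm x) (B.symm y)

instance (B : Board 4) : DecidableRel (R B) := fun x y => by unfold R; infer_instance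

def N₁ : List (List ℕ) := [[1, 4, 5], [0, 4, 5], [3, 5, 6, 7], [2, 6, 7], [0, 1, 5, 8, 9],
  [0, 1, 2, 4, 6, 8, 9, 10], [2, 3, 5, 7, 9, 10, 11], [2, 3, 6, 10, 11], [4, 5, 9, 12, 13],
  [4, 5, 6, 8, 10, 12, 13, 14], [5, 6, 7, 9, 11, 13, 14, 15], [6, 7, 10, 14, 15], [8, 9, 13],
  [8, 9, 10, 12, 14], [9, 10, 11, 13, 15], [10, 11, 14]]

def N₂ : List (List ℕ) := [[1, 4, 5], [0, 2, 4, 5, 6], [1, 3, 5, 6, 7], [2, 6, 7], [0, 1, 5, 8, 9],
  [0, 1, 2, 4, 6], [1, 2, 3, 5, 7, 9, 10, 11], [2, 3, 6, 10, 11], [4, 9, 12, 13],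
  [4, 6, 8, 10, 12, 13, 14], [6, 7, 9, 11, 13, 14, 15], [6, 7, 10, 14, 15], [8, 9, 13],
  [8, 9, 10, 12, 14], [9, 10, 11, 13, 15], [10, 11, 14]]

theorem hN₁ : ∀ v : Fin 16, (univ.filter (R B₁ v)).val.map Fin.val =
    ((N₁.getD v.val [] : List ℕ) : Multiset ℕ) := by
  decide +kernel

theorem hN₂ : ∀ v : Fin 16, (univ.filter (R B₂ v)).val.map Fin.val =
    ((N₂.getD v.val [] : List ℕ) : Multiset ℕ) := by
  decide +kernel

theorem hdeg₁ : ∀ v : Fin 16, (univ.filter (R B₁ v)).card ≤ 8 := by decide +kernel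

theorem hdeg₂ : ∀ v : Fin 16, (univ.filter (R B₂ v)).card ≤ 8 := by decide +kernel

theorem comp₁ : answer N₁ = 109844 := by decide +kernel

theorem comp₂ : answer N₂ = 158224 := by decide +kernel

theorem isChain_and {α : Type} (P Q : α → α → Prop) (l : List α) :
    l.IsChain (fun x y => P x y ∧ Q x y) ↔ l.IsChain P ∧ l.IsChain Q := by
  induction l with
  | nil => simp
  | cons a l ih =>
    rcases l with _ | ⟨b, l⟩
    · simp
    · rw [List.isChain_cons_cons, List.isChain_cons_cons, List.isChain_cons_cons, ih]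
      tauto

theorem common_eq (B : Board 4) (N : List (List ℕ))
    (hN : ∀ v : Fin 16, (univ.filter (R B v)).val.map Fin.val = ((N.getD v.val [] : List ℕ) : Multiset ℕ))
    (hdeg : ∀ v : Fin 16, (univ.filter (R B v)).card ≤ 8) : common 16 B₀ B = answer N := by
  rw [answer_eq (R B) N hN hdeg, common, ← Set.ncard_coe_finset]
  congr 1
  ext l
  simp only [words, Set.mem_inter_iff, Set.mem_ofPred_eq, Finset.coe_filter, mem_A]
  constructor
  · rintro ⟨⟨h1, h2, h3⟩, -, -, h4⟩
    exact ⟨⟨h1, (isChain_and _ _ l).mpr ⟨h3, h4⟩⟩, (nodup_iff l h1).mp h2⟩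
  · rintro ⟨⟨h1, h2⟩, h3⟩
    have h4 := (isChain_and _ _ l).mp h2
    have h5 := (nodup_iff l h1).mpr h3
    exact ⟨⟨h1, h5, h4.1⟩, h1, h5, h4.2⟩

/-- **Main result.** For `n = 4`, `k = 16` a corner-side swap has `109844` sixteen-letter words in
common with the board, whereas the board obtained by exchanging a side cell with the adjacent inner
cell has `158224` of them. -/
theorem result : ∃ B B₁ B₂ : Board 4, IsCornerSideSwap B B₁ ∧ ¬ Equivalent B B₂ ∧
    common 16 B B₁ = 109844 ∧ common 16 B B₂ = 158224 ∧ common 16 B B₁ < common 16 B B₂ := by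
  have h1 : common 16 B₀ B₁ = 109844 := (common_eq B₁ N₁ hN₁ hdeg₁).trans comp₁
  have h2 : common 16 B₀ B₂ = 158224 := (common_eq B₂ N₂ hN₂ hdeg₂).trans comp₂
  refine ⟨B₀, B₁, B₂, ⟨(0, 0), (0, 1), by simp [IsCorner], by simp [IsBoundary], by simp [IsCorner],
    by simp [ShareEdge], rfl⟩, ?_, h1, h2, by rw [h1, h2]; norm_num⟩
  intro h
  have h3 := h 2 le_rfl
  have h4 : ([5, 8] : List (Fin 16)) ∈ words 2 B₀ := by
    refine ⟨rfl, by decide, ?_⟩
    rw [List.isChain_cons_cons]
    exact ⟨by decide +kernel, by simp⟩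
  rw [h3] at h4
  have h5 := h4.2.2
  rw [List.isChain_cons_cons] at h5
  exact absurd h5.1 (by decide +kernel)

end Pool.Agent.Results.MP_407208_co.SideInnerSwap
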